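import Pool.Agent.Helper4.CI.Goals

/-!
# P4: the primal formula for `Φ`
-/

namespace Mono.CI.P4

open Finset Filter Topology Pointwise Mono Mono.CI

theorem primalC (hP : Primal) (h3 : JTransfer) (hI : IdxScale) (h5 : VolScale) (hS : ScaleRel)
    (h4 : PsiRel) : PrimalC := by
  classical
  intro N k A b L b' Z Φ' Φ hTri T hT T' hT' s s' w hs hgen hne1 hne2 hne3 hpos1 hpos2 τ hτ hτA
    hcols
  obtain ⟨hinj, hvert, hvZ, hupZ, hdisj, hH, hmx, hmx', hfaces, hcrd, hgeneric⟩ :=
    hS N k A b L b' Z Φ' Φ hTri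
  set H := Hset A Z with hHdef
  -- a vertex of colour `none`
  have hnone : (none : Option (Fin k)) ∈ cols τ := by rw [hcols]; exact mem_univ _
  obtain ⟨v, hvτ, hv0⟩ := (mem_filter.mp hnone).2
  have hv0' : ∀ j, v (Fin.natAdd N j) = 0 := by
    intro j
    rw [hv0 j]
    simp [ind]
  have hvH : v ∉ H := (hH v (hτA hvτ)).mpr hv0'
  have hτv : τ ⊆ Φ.vert := fun u hu => by
    rw [hTri.vert, mem_union]
    exact Or.inl (hτA hu)
  -- the vertex in the form `lift none t`
  have hvt : ∃ t ∈ A none, lift none t = v := by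
    have h1 := hτA hvτ
    rw [cay, mem_biUnion] at h1
    obtain ⟨c, -, hc⟩ := h1
    obtain ⟨t, ht, rfl⟩ := mem_image.mp hc
    cases c with
    | none => exact ⟨t, ht, rfl⟩
    | some j =>
      exfalso
      have h2 := hv0' j
      simp [lift, ind, Fin.append_right] at h2
  obtain ⟨t, ht, htv⟩ := hvt
  -- the face of `Φ'`
  have hτ' := (hfaces τ hτv).mp hτ
  have hface : Φ'.IsFace (τ.image (up L H)) := by
    rw [Fan.faces, mem_biUnion] at hτ'
    obtain ⟨F, hF, hF2⟩ := hτ'
    exact ⟨F, hF, mem_powerset.mp hF2⟩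
  have hnZ : ¬ τ.image (up L H) ⊆ Z := by
    intro h
    have h1 : up L H v ∈ Z := h (mem_image_of_mem _ hvτ)
    rw [hupZ v (hτv hvτ)] at h1
    exact (Finset.disjoint_left.mp hdisj) (hτA hvτ) h1
  have hprim := hP (N + k) Φ' T' Z hTri.tri.2.2.2.2.2.1 (by rw [hvZ]; exact hT') w
    ((hgeneric w).mp hgen) s' hne1 (by rw [hvZ]; exact hne2) hne3 (τ.image (up L H)) hface hnZ
  rw [hvZ] at hprim
  have hJ := h3 N k A b L b' Z Φ' Φ hTri T hT T' hT' s s' w hs hpos1 hpos2 τ hτ hτA hcols
  rw [hJ, hprim]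
  have hvol := (h5 N k A b L b' Z Φ' Φ hTri τ hτ hτA).2 ⟨v, Finset.mem_sdiff.mpr ⟨hvτ, hvH⟩⟩
  rw [hvol]
  have hL0 : (L : ℝ) ≠ 0 := by
    have := hTri.two_le
    positivity
  have hinjF : ∀ F ∈ Φ.mx, Set.InjOn (up L H) (F : Set (Fin (N + k) → ℤ)) := by
    intro F hF u hu u' hu' he
    exact hinj u (Φ.mx_sub F hF hu) u' (Φ.mx_sub F hF hu') he
  -- the sum
  have hR : Φ'.Rsum Z (τ.image (up L H)) s' w =
      (L : ℝ) / (L : ℝ) ^ (τ \ H).card * Φ.Rsum H τ s w := by
    rw [Fan.Rsum, Fan.Rsum, mul_sum]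
    symm
    refine sum_bij (fun F _ => F.image (up L H)) ?_ ?_ ?_ ?_
    · intro F hF
      rw [mem_filter] at hF ⊢
      exact ⟨hmx F hF.1, image_subset_image hF.2⟩
    · intro F hF F' hF' he
      rw [mem_filter] at hF hF'
      ext u
      constructor
      · intro hu
        have h1 : up L H u ∈ F'.image (up L H) := he ▸ mem_image_of_mem _ hu
        obtain ⟨u', hu', he'⟩ := mem_image.mp h1
        rw [← hinj u' (Φ.mx_sub F' hF'.1 hu') u (Φ.mx_sub F hF.1 hu) he']
        exact hu'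
      · intro hu
        have h1 : up L H u ∈ F.image (up L H) := he ▸ mem_image_of_mem _ hu
        obtain ⟨u', hu', he'⟩ := mem_image.mp h1
        rw [← hinj u' (Φ.mx_sub F hF.1 hu') u (Φ.mx_sub F' hF'.1 hu) he']
        exact hu'
    · intro F' hF'
      rw [mem_filter] at hF'
      obtain ⟨F, hF, rfl⟩ := hmx' F' hF'.1
      refine ⟨F, ?_, rfl⟩
      rw [mem_filter]
      refine ⟨hF, fun u hu => ?_⟩
      have h1 := hF'.2 (mem_image_of_mem (up L H) hu)
      obtain ⟨u', hu', he'⟩ := mem_image.mp h1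
      rw [← hinj u' (Φ.mx_sub F hF hu') u (hτv hu) he']
      exact hu'
    · intro F hF
      rw [mem_filter] at hF
      obtain ⟨hFm, hτF⟩ := hF
      have hidx := hI N k A b L b' Z Φ' Φ hTri F hFm
      have hpsi := (h4 N k A b L b' Z Φ' Φ hTri F hFm ⟨t, ht, htv ▸ hτF hvτ⟩ w).1
      have hsum : s' + psi Z (F.image (up L H)) w = (s + psi H F w) / L := by
        rw [hpsi, hs]
        field_simp
        ring
      have hsd : F.image (up L H) \ τ.image (up L H) = (F \ τ).image (up L H) := by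
        ext y
        simp only [Finset.mem_sdiff, mem_image]
        constructor
        · rintro ⟨⟨u, hu, rfl⟩, hnot⟩
          exact ⟨u, ⟨hu, fun h => hnot ⟨u, h, rfl⟩⟩, rfl⟩
        · rintro ⟨u, ⟨hu, hut⟩, rfl⟩
          refine ⟨⟨u, hu, rfl⟩, ?_⟩
          rintro ⟨u', hu', he'⟩
          exact hut (hinj u' (hτv hu') u (Φ.mx_sub F hFm hu) he' ▸ hu')
      have hprod : ∏ y ∈ F.image (up L H) \ τ.image (up L H), crd (F.image (up L H)) w y =
          (∏ u ∈ F \ τ, crd F w u) / (L : ℝ) ^ ((F \ τ) \ H).card := by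
        rw [hsd, prod_image (fun u hu u' hu' he => hinjF F hFm (Finset.mem_sdiff.mp hu).1
          (Finset.mem_sdiff.mp hu').1 he)]
        have h1 : ∀ u ∈ F \ τ, crd (F.image (up L H)) w (up L H u) =
            crd F w u * (if u ∈ H then 1 else (L : ℝ))⁻¹ := by
          intro u hu
          rw [hcrd F hFm w u (Finset.mem_sdiff.mp hu).1]
          split_ifs
          · simp
          · field_simp
        rw [prod_congr rfl h1, prod_mul_distrib, div_eq_mul_inv]
        congr 1
        rw [prod_inv_distrib]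
        congr 1
        rw [prod_ite, prod_const_one, one_mul, prod_const]
        congr 2
        ext u
        simp only [mem_filter, Finset.mem_sdiff]
      have hcard : (F \ H).card = ((F \ τ) \ H).card + (τ \ H).card := by
        rw [← card_union_of_disjoint]
        · congr 1
          ext u
          simp only [Finset.mem_sdiff, mem_union]
          constructor
          · rintro ⟨h1, h2⟩
            by_cases h3 : u ∈ τ
            · exact Or.inr ⟨h3, h2⟩
            · exact Or.inl ⟨⟨h1, h3⟩, h2⟩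
          · rintro (⟨⟨h1, -⟩, h2⟩ | ⟨h1, h2⟩)
            · exact ⟨h1, h2⟩
            · exact ⟨hτF h1, h2⟩
        · rw [disjoint_left]
          intro u hu hu'
          exact (Finset.mem_sdiff.mp (Finset.mem_sdiff.mp hu).1).2 (Finset.mem_sdiff.mp hu').1
      rw [hidx, hsum, hprod, hcard]
      push_cast
      rw [pow_add]
      by_cases hz1 : (idx (F : Set (Fin (N + k) → ℤ)) : ℝ) = 0
      · simp [hz1]
      by_cases hz2 : s + psi H F w = 0
      · simp [hz2]
      by_cases hz3 : ∏ u ∈ F \ τ, crd F w u = 0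
      · simp [hz3]
      field_simp
  rw [hR]
  have hc : 1 ≤ (τ \ H).card := card_pos.mpr ⟨v, Finset.mem_sdiff.mpr ⟨hvτ, hvH⟩⟩
  obtain ⟨m, hm⟩ : ∃ m, (τ \ H).card = m + 1 := ⟨(τ \ H).card - 1, by omega⟩
  rw [hm]
  push_cast
  rw [pow_succ]
  field_simp
  exact mul_comm _ _

end Mono.CI.P4
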